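import Pool.Agent.J6H9.EX.Stm2

/-! EX-REP: every Erdős–Ulam ideal with positive weights is of the form `W w d`. -/

set_option autoImplicit false

namespace Pool.Agent.J6H37.EX

open Filter Topology Pool.Agent.J6H9.EU Pool.Agent.J6H9.EX Finset

/-- halving recursion -/
lemma halving {u r : ℕ → ℝ} (hu : ∀ k, 0 ≤ u k) (h : ∀ k, u (k + 1) ≤ u k / 2 + r k)
    (hr : Tendsto r atTop (𝓝 0)) : Tendsto u atTop (𝓝 0) := by
  rw [Metric.tendsto_atTop]
  intro ε hε
  rw [Metric.tendsto_atTop] at hr
  obtain ⟨K, hK⟩ := hr (ε / 4) (by positivity)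
  have hstep : ∀ j, u (K + j) ≤ u K / 2 ^ j + ε / 2 := by
    intro j
    induction j with
    | zero =>
      rw [pow_zero, div_one, add_zero]
      linarith
    | succ j ih =>
      have h1 := h (K + j)
      have h2 := hK (K + j) (by omega)
      rw [Real.dist_eq, sub_zero] at h2
      have h3 := (abs_lt.1 h2).2
      have h4 : u (K + (j + 1)) ≤ (u K / 2 ^ j + ε / 2) / 2 + ε / 4 := by
        rw [← add_assoc]
        linarith
      refine h4.trans (le_of_eq ?_)
      rw [pow_succ]
      field_simp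
      ring
  obtain ⟨J, hJ⟩ : ∃ J : ℕ, u K / 2 ^ J < ε / 2 := by
    obtain ⟨J, hJ⟩ := pow_unbounded_of_one_lt (2 * u K / ε) (by norm_num : (1 : ℝ) < 2)
    refine ⟨J, ?_⟩
    rw [div_lt_iff₀ (by positivity)]
    rw [div_lt_iff₀ hε] at hJ
    linarith
  refine ⟨K + J, fun n hn => ?_⟩
  obtain ⟨j, rfl⟩ := Nat.exists_eq_add_of_le (show K ≤ n by omega)
  have h1 := hstep j
  have h2 : u K / 2 ^ j ≤ u K / 2 ^ J :=
    div_le_div_of_nonneg_left (hu K) (by positivity) (pow_le_pow_right₀ (by norm_num) (by omega))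
  rw [Real.dist_eq, sub_zero, abs_of_nonneg (hu _)]
  linarith

/-- the partition points -/
lemma points {F : ℕ → ℝ} (hF : Tendsto F atTop atTop) :
    ∃ a : ℕ → ℕ, a 0 = 0 ∧ ∀ k, 2 * F (a k) + 1 ≤ F (a (k + 1)) ∧ ∀ n, n < a (k + 1) → F n < 2 * F (a k) + 1 := by
  classical
  have hex : ∀ t : ℝ, ∃ n, t ≤ F n := fun t => (hF.eventually_ge_atTop t).exists
  refine ⟨fun k => Nat.rec 0 (fun _ b => Nat.find (hex (2 * F b + 1))) k, rfl, fun k => ⟨?_, ?_⟩⟩
  · exact Nat.find_spec (hex (2 * F (Nat.rec 0 (fun _ b => Nat.find (hex (2 * F b + 1))) k) + 1))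
  · intro n hn
    exact not_le.1 (Nat.find_min (hex (2 * F (Nat.rec 0 (fun _ b => Nat.find (hex (2 * F b + 1))) k) + 1)) hn)

theorem main : S_REP := by
  classical
  intro f hf hF hsm
  obtain ⟨F, hFdef⟩ : ∃ F : ℕ → ℝ, F = fun n => ∑ i ∈ range n, f i := ⟨_, rfl⟩
  have hFe : ∀ n, F n = ∑ i ∈ range n, f i := fun n => by rw [hFdef]
  rw [← hFdef] at hF
  have hsm' : Tendsto (fun n => f n / F (n + 1)) atTop (𝓝 0) := by
    simpa only [hFdef] using hsm
  have hFs : ∀ n, F (n + 1) = F n + f n := fun n => by rw [hFe, hFe, sum_range_succ]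
  have hFm : StrictMono F := strictMono_nat_of_lt_succ fun n => by rw [hFs]; linarith [hf n]
  have hF0 : F 0 = 0 := by rw [hFe]; simp
  have hFn : ∀ n, 0 ≤ F n := fun n => by rw [hFe]; exact sum_nonneg fun i _ => (hf i).le
  obtain ⟨a, a0, ha⟩ := points hF
  have am : StrictMono a := strictMono_nat_of_lt_succ fun k =>
    hFm.lt_iff_lt.1 (by linarith [(ha k).1, hFn (a k)])
  have al : ∀ k, k ≤ a k := fun k => am.le_apply
  have hkap : ∀ x, ∃ k, a k ≤ x ∧ x < a (k + 1) := by
    intro x
    have hex : ∃ n, x < a (n + 1) := ⟨x, lt_of_lt_of_le (Nat.lt_succ_self x) (al (x + 1))⟩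
    refine ⟨Nat.find hex, ?_, Nat.find_spec hex⟩
    rcases Nat.eq_zero_or_pos (Nat.find hex) with h | h
    · rw [h, a0]; exact Nat.zero_le _
    · have h2 := Nat.find_min hex (m := Nat.find hex - 1) (by omega)
      rw [Nat.sub_add_cancel h] at h2
      exact not_lt.1 h2
  choose κ hκ1 hκ2 using hkap
  have hκ : ∀ k x, a k ≤ x → x < a (k + 1) → κ x = k := by
    intro k x h1 h2
    have h3 := am.lt_iff_lt.1 (lt_of_le_of_lt (hκ1 x) h2)
    have h4 := am.lt_iff_lt.1 (lt_of_le_of_lt h1 (hκ2 x))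
    omega
  obtain ⟨m, hm⟩ : ∃ m : ℕ → ℝ, ∀ k, m k = F (a (k + 1)) - F (a k) := ⟨_, fun _ => rfl⟩
  have hmpos : ∀ k, 0 < m k := fun k => by rw [hm]; linarith [(ha k).1, hFn (a k)]
  have hmhalf : ∀ k, F (a (k + 1)) / 2 ≤ m k := fun k => by rw [hm]; linarith [(ha k).1, hFn (a k)]
  obtain ⟨w, hw⟩ : ∃ w : ℕ → ℝ, ∀ x, w x = f x / m (κ x) := ⟨_, fun _ => rfl⟩
  obtain ⟨d, hd⟩ : ∃ d : ℕ → ℕ, ∀ k, d k = a (k + 1) - a k := ⟨_, fun _ => rfl⟩
  have hlt : ∀ k, a k < a (k + 1) := fun k => am (Nat.lt_succ_self k)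
  have hst : ∀ k, st d k = a k := by
    intro k
    unfold st
    induction k with
    | zero => rw [sum_range_zero, a0]
    | succ k ih =>
      rw [sum_range_succ, ih, hd]
      have := hlt k
      omega
  have hDn : ∀ k, Dn d k = Ico (a k) (a (k + 1)) := by
    intro k
    unfold Dn
    rw [hst, hd]
    have := hlt k
    congr 1
    omega
  have hwk : ∀ k, ∀ x ∈ Ico (a k) (a (k + 1)), w x = f x / m k := by
    intro k x hx
    rw [mem_Ico] at hx
    rw [hw, hκ k x hx.1 hx.2]
  have hsumF : ∀ k, ∑ x ∈ Ico (a k) (a (k + 1)), f x = m k := by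
    intro k
    rw [hm, hFe, hFe, ← sum_range_add_sum_Ico f (hlt k).le]
    ring
  have hsumw : ∀ k, ∑ x ∈ Ico (a k) (a (k + 1)), w x = 1 := by
    intro k
    rw [sum_congr rfl (hwk k), ← sum_div, hsumF, div_self (hmpos k).ne']
  refine ⟨w, d, ⟨?_, ?_, ?_, ?_, ?_⟩, ?_⟩
  · intro x
    rw [hw]
    exact div_pos (hf x) (hmpos _)
  · intro k
    rw [hd]
    have := hlt k
    omega
  · intro k
    rw [hDn, hsumw]
  · exact ⟨1, one_pos, fun k => by rw [hDn, hsumw]⟩
  · intro ε hε
    have h1 := hsm'.eventually (gt_mem_nhds (show (0 : ℝ) < ε / 2 by positivity))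
    rw [eventually_atTop] at h1
    obtain ⟨M, hM⟩ := h1
    refine ⟨M, fun n hn x hx => ?_⟩
    rw [hDn] at hx
    rw [hwk n x hx]
    rw [mem_Ico] at hx
    have h2 := hM x (hn.trans ((al n).trans hx.1))
    have h3 : F (x + 1) ≤ F (a (n + 1)) := hFm.monotone hx.2
    have h4 : 0 < F (x + 1) := by rw [hFs]; linarith [hf x, hFn x]
    rw [div_lt_iff₀ h4] at h2
    rw [div_le_iff₀ (hmpos n)]
    have h5 := hmhalf n
    nlinarith
  · ext A
    obtain ⟨S, hS⟩ : ∃ S : ℕ → ℝ, ∀ n, S n = ∑ i ∈ (range n).filter (· ∈ A), f i := ⟨_, fun _ => rfl⟩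
    obtain ⟨r, hr⟩ : ∃ r : ℕ → ℝ, ∀ k, r k = ∑ x ∈ (Ico (a k) (a (k + 1))).filter (· ∈ A), w x := ⟨_, fun _ => rfl⟩
    have hr0 : ∀ k, 0 ≤ r k := by
      intro k
      rw [hr]
      exact sum_nonneg fun x _ => by rw [hw]; exact (div_pos (hf x) (hmpos _)).le
    have hS0 : ∀ n, 0 ≤ S n := fun n => by rw [hS]; exact sum_nonneg fun i _ => (hf i).le
    have hSm : Monotone S := by
      intro i j hij
      rw [hS, hS]
      apply sum_le_sum_of_subset_of_nonneg
      · exact filter_subset_filter _ (range_subset_range.2 hij)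
      · intro x _ _
        exact (hf x).le
    have hSr : ∀ k, S (a (k + 1)) = S (a k) + r k * m k := by
      intro k
      have h1 : r k * m k = ∑ x ∈ (Ico (a k) (a (k + 1))).filter (· ∈ A), f x := by
        rw [hr, sum_mul]
        refine sum_congr rfl fun x hx => ?_
        rw [hwk k x (mem_filter.1 hx).1, div_mul_cancel₀ _ (hmpos k).ne']
      rw [h1, hS, hS, sum_filter, sum_filter, sum_filter, sum_range_add_sum_Ico _ (hlt k).le]
    have hEU : A ∈ EU f ↔ Tendsto (fun n => S n / F n) atTop (𝓝 0) := by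
      unfold EU
      simp only [Set.mem_ofPred_eq, hS, hFe]
    have hWW : A ∈ W w d ↔ Tendsto r atTop (𝓝 0) := by
      unfold W
      simp only [Set.mem_ofPred_eq, hDn]
      have : (fun n => ∑ x ∈ (Ico (a n) (a (n + 1))).filter (· ∈ A), w x) = r := by
        funext k
        rw [hr]
      constructor
      · intro h
        rw [← this]
        convert h
      · intro h
        rw [← this] at h
        convert h
    rw [hEU, hWW]
    constructor
    · intro h
      have h1 : Tendsto (fun k => 2 * (S (a (k + 1)) / F (a (k + 1)))) atTop (𝓝 0) := by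
        have := (h.comp (am.tendsto_atTop.comp (tendsto_add_atTop_nat 1))).const_mul 2
        rw [mul_zero] at this
        exact this
      refine squeeze_zero hr0 (fun k => ?_) h1
      have hFk : 0 < F (a (k + 1)) := by linarith [(ha k).1, hFn (a k)]
      have h2 : r k * m k ≤ S (a (k + 1)) := by rw [hSr]; linarith [hS0 (a k)]
      rw [← mul_div_assoc, le_div_iff₀ hFk]
      nlinarith [hmhalf k, hr0 k]
    · intro h
      have hu : Tendsto (fun k => S (a k) / F (a k)) atTop (𝓝 0) := by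
        refine halving (fun k => div_nonneg (hS0 _) (hFn _)) (fun k => ?_) h
        have hFk : 0 < F (a (k + 1)) := by linarith [(ha k).1, hFn (a k)]
        rw [div_le_iff₀ hFk, hSr]
        have h1 : r k * m k ≤ r k * F (a (k + 1)) :=
          mul_le_mul_of_nonneg_left (by rw [hm]; linarith [hFn (a k)]) (hr0 k)
        have h2 : S (a k) ≤ S (a k) / F (a k) / 2 * F (a (k + 1)) := by
          rcases (hFn (a k)).eq_or_lt with h0 | h0
          · have : a k = 0 := by
              by_contra hne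
              have := hFm (Nat.pos_of_ne_zero hne)
              rw [hF0] at this
              linarith
            have hS00 : S (a k) = 0 := by rw [this, hS]; simp
            rw [hS00]; simp
          · have h3 := (ha k).1
            have h4 : S (a k) / F (a k) * (2 * F (a k)) ≤ S (a k) / F (a k) * F (a (k + 1)) :=
              mul_le_mul_of_nonneg_left (by linarith) (div_nonneg (hS0 _) (hFn _))
            have h5 : S (a k) / F (a k) * (2 * F (a k)) = 2 * S (a k) := by field_simp
            rw [h5] at h4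
            linarith
        linarith
      -- eventually `F (a (k + 1)) ≤ 4 * F (a k)`
      have h4 : ∀ᶠ k in atTop, F (a (k + 1)) ≤ 4 * F (a k) ∧ 0 < F (a k) := by
        have e1 := hsm'.eventually (gt_mem_nhds (show (0 : ℝ) < 1 / 4 by norm_num))
        rw [eventually_atTop] at e1
        obtain ⟨M, hM⟩ := e1
        have e2 : ∀ᶠ k in atTop, (1 : ℝ) ≤ F (a k) := (hF.comp am.tendsto_atTop).eventually_ge_atTop 1
        filter_upwards [e2, eventually_ge_atTop M] with k hk1 hkM
        refine ⟨?_, by linarith⟩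
        obtain ⟨b, hb⟩ : ∃ b, a (k + 1) = b + 1 := ⟨a (k + 1) - 1, by have := hlt k; omega⟩
        have h5 := (ha k).2 b (by omega)
        have h6 := hM b (by have := hlt k; have := al k; omega)
        have h7 : 0 < F (b + 1) := by rw [hFs]; linarith [hf b, hFn b]
        rw [div_lt_iff₀ h7, hFs] at h6
        rw [hb, hFs]
        linarith
      have hκt : Tendsto κ atTop atTop := by
        rw [tendsto_atTop]
        intro b
        filter_upwards [eventually_ge_atTop (a b)] with x hx
        have := am.lt_iff_lt.1 (lt_of_le_of_lt hx (hκ2 x))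
        omega
      have h5 : Tendsto (fun N => 4 * (S (a (κ N + 1)) / F (a (κ N + 1)))) atTop (𝓝 0) := by
        have := (hu.comp ((tendsto_add_atTop_nat 1).comp hκt)).const_mul 4
        rw [mul_zero] at this
        exact this
      refine squeeze_zero' (Eventually.of_forall fun N => div_nonneg (hS0 _) (hFn _)) ?_ h5
      filter_upwards [hκt.eventually h4] with N hN
      have hFk : 0 < F (a (κ N + 1)) := by linarith [(ha (κ N)).1, hFn (a (κ N))]
      have h6 : F (a (κ N)) ≤ F N := hFm.monotone (hκ1 N)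
      have h7 : S N ≤ S (a (κ N + 1)) := hSm (hκ2 N).le
      have hFN : 0 < F N := by linarith [hN.2]
      rw [← mul_div_assoc, div_le_div_iff₀ hFN hFk]
      have h8 := hS0 (a (κ N + 1))
      have h9 : S N * F (a (κ N + 1)) ≤ S (a (κ N + 1)) * F (a (κ N + 1)) :=
        mul_le_mul_of_nonneg_right h7 hFk.le
      have h10 : S (a (κ N + 1)) * F (a (κ N + 1)) ≤ S (a (κ N + 1)) * (4 * F N) :=
        mul_le_mul_of_nonneg_left (by linarith [hN.1]) h8
      linarith

end Pool.Agent.J6H37.EX
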